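import Pool.Agent.Y771.KF.App

set_option autoImplicit false

/-!
# Exponentials of complex polynomials in the logarithm are algebraically independent
-/

open Filter Topology Height Height.AdmissibleAbsValues MvPolynomial Pool.Agent.Y124 Pool.Agent.Y771.KF

namespace Pool.Agent.Y627.PL

/-- the derivative of `R exp F`, divided by `exp F` -/
noncomputable def tw (F R : Polynomial ℂ) : Polynomial ℂ :=
  Polynomial.derivative R + Polynomial.derivative F * R

lemma tw_ne (F R : Polynomial ℂ) (hF : F.natDegree ≠ 0) (hR : R ≠ 0) : tw F R ≠ 0 := by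
  intro h
  have hF' : Polynomial.derivative F ≠ 0 := fun h0 =>
    hF (Polynomial.derivative_eq_zero.1 h0)
  have h1 : Polynomial.derivative R = -(Polynomial.derivative F * R) := eq_neg_of_add_eq_zero_left h
  have h2 := Polynomial.degree_derivative_lt hR
  rw [h1, Polynomial.degree_neg, Polynomial.degree_mul] at h2
  have h3 : (0 : WithBot ℕ) ≤ (Polynomial.derivative F).degree :=
    Polynomial.zero_le_degree_iff.2 hF'
  have h4 : R.degree ≤ (Polynomial.derivative F).degree + R.degree :=
    le_add_of_nonneg_left h3
  exact absurd h2 (not_lt.2 h4)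

lemma tw_iter_ne (F : Polynomial ℂ) (hF : F.natDegree ≠ 0) (N : ℕ) :
    ∀ R : Polynomial ℂ, (tw F)^[N] R = 0 → R = 0 := by
  induction N with
  | zero => intro R h; simpa using h
  | succ N ih =>
    intro R h
    rw [Function.iterate_succ_apply] at h
    have h1 := ih _ h
    by_contra hR
    exact tw_ne F R hF hR h1

lemma hasDeriv (F R : Polynomial ℂ) (s : ℂ) :
    HasDerivAt (fun s => R.eval s * Complex.exp (F.eval s)) ((tw F R).eval s * Complex.exp (F.eval s)) s := by
  have h1 := (R.hasDerivAt s).mul ((F.hasDerivAt s).cexp)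
  refine h1.congr_deriv ?_
  unfold tw
  rw [Polynomial.eval_add, Polynomial.eval_mul]
  ring

theorem exp_indep {ι : Type*} [DecidableEq ι] (I : Finset ι) : ∀ (R E : ι → Polynomial ℂ),
    (∀ i ∈ I, ∀ j ∈ I, i ≠ j → (E i - E j).natDegree ≠ 0) →
    (∀ s : ℂ, ∑ i ∈ I, (R i).eval s * Complex.exp ((E i).eval s) = 0) → ∀ i ∈ I, R i = 0 := by
  induction I using Finset.induction_on with
  | empty => intro R E _ _ i hi; simp at hi
  | insert i0 I hi0 ih =>
    intro R E hE h
    have hF : ∀ i ∈ I, (E i - E i0).natDegree ≠ 0 := fun i hi =>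
      hE i (Finset.mem_insert_of_mem hi) i0 (Finset.mem_insert_self _ _) (fun h0 => hi0 (h0 ▸ hi))
    -- the relation with the exponent of `i0` removed, differentiated `N` times
    have key : ∀ N : ℕ, ∀ s : ℂ, (Polynomial.derivative^[N] (R i0)).eval s +
        ∑ i ∈ I, ((tw (E i - E i0))^[N] (R i)).eval s * Complex.exp ((E i - E i0).eval s) = 0 := by
      intro N
      induction N with
      | zero =>
        intro s
        have h1 := h s
        rw [Finset.sum_insert hi0] at h1
        have h2 : Complex.exp (-(E i0).eval s) * ((R i0).eval s * Complex.exp ((E i0).eval s) +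
            ∑ i ∈ I, (R i).eval s * Complex.exp ((E i).eval s)) = 0 := by rw [h1, mul_zero]
        rw [mul_add, Finset.mul_sum] at h2
        have h3 : Complex.exp (-(E i0).eval s) * ((R i0).eval s * Complex.exp ((E i0).eval s)) =
            (R i0).eval s := by
          rw [mul_left_comm, ← Complex.exp_add]
          simp
        rw [h3] at h2
        simp only [Function.iterate_zero, id_eq]
        rw [← h2]
        congr 1
        refine Finset.sum_congr rfl fun i _ => ?_
        rw [mul_left_comm, ← Complex.exp_add, Polynomial.eval_sub]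
        congr 2
        ring
      | succ N ihN =>
        intro s
        have hd : HasDerivAt (fun s => (Polynomial.derivative^[N] (R i0)).eval s +
            ∑ i ∈ I, ((tw (E i - E i0))^[N] (R i)).eval s * Complex.exp ((E i - E i0).eval s))
            ((Polynomial.derivative (Polynomial.derivative^[N] (R i0))).eval s +
            ∑ i ∈ I, (tw (E i - E i0) ((tw (E i - E i0))^[N] (R i))).eval s *
              Complex.exp ((E i - E i0).eval s)) s := by
          refine (Polynomial.hasDerivAt _ s).add ?_
          exact HasDerivAt.fun_sum fun i _ => hasDeriv _ _ s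
        have h0 : (fun s => (Polynomial.derivative^[N] (R i0)).eval s +
            ∑ i ∈ I, ((tw (E i - E i0))^[N] (R i)).eval s * Complex.exp ((E i - E i0).eval s)) =
            fun _ => (0 : ℂ) := funext ihN
        rw [h0] at hd
        have h1 := hd.unique (hasDerivAt_const s (0 : ℂ))
        simp only [Function.iterate_succ_apply']
        exact h1
    have h1 : ∀ i ∈ I, R i = 0 := by
      have h2 := ih (fun i => (tw (E i - E i0))^[(R i0).natDegree + 1] (R i)) (fun i => E i - E i0)
        (fun i hi j hj hij => by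
          have h3 : E i - E i0 - (E j - E i0) = E i - E j := by ring
          rw [h3]
          exact hE i (Finset.mem_insert_of_mem hi) j (Finset.mem_insert_of_mem hj) hij)
        (fun s => by
          have h3 := key ((R i0).natDegree + 1) s
          rw [Polynomial.iterate_derivative_eq_zero (Nat.lt_succ_self _), Polynomial.eval_zero, zero_add] at h3
          exact h3)
      intro i hi
      exact tw_iter_ne _ (hF i hi) _ _ (h2 i hi)
    intro i hi
    rcases Finset.mem_insert.1 hi with rfl | hi
    · apply Polynomial.funext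
      intro s
      have h2 := h s
      rw [Finset.sum_insert hi0, Finset.sum_eq_zero (fun j hj => by rw [h1 j hj]; simp), add_zero] at h2
      rw [Polynomial.eval_zero]
      exact (mul_eq_zero.1 h2).resolve_right (Complex.exp_ne_zero _)
    · exact h1 i hi

/-- the functions `log z`, `exp (Q_k (log z))` -/
noncomputable def upc {M : ℕ} (Q : Fin M → Polynomial ℂ) (i : Option (Fin M)) (z : ℂ) : ℂ :=
  i.elim (Complex.log z) fun k => Complex.exp ((Q k).eval (Complex.log z))

/-- the values at `z = exp s` -/
noncomputable def ups {M : ℕ} (Q : Fin M → Polynomial ℂ) (s : ℂ) (o : Option (Option (Fin M))) : ℂ :=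
  o.elim (Complex.exp s) fun y => y.elim s fun k => Complex.exp ((Q k).eval s)

theorem upc_an {M : ℕ} (Q : Fin M → Polynomial ℂ) (i : Option (Fin M)) :
    AnalyticOnNhd ℂ (upc Q i) Complex.slitPlane := by
  intro z hz
  have h0 : AnalyticAt ℂ Complex.log z := analyticAt_clog hz
  rcases i with _ | k
  · exact h0
  · have h1 : AnalyticAt ℂ (fun z : ℂ => (Q k).eval (Complex.log z)) z := by
      have h2 : (fun z : ℂ => (Q k).eval (Complex.log z)) = fun z => Polynomial.aeval (Complex.log z) (Q k) := by
        funext t
        simp [Polynomial.aeval_def]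
      rw [h2]
      exact AnalyticAt.aeval_polynomial h0 _
    exact h1.cexp

theorem eval_ups {M : ℕ} (Q : Fin M → Polynomial ℂ) (P : MvPolynomial (Option (Option (Fin M))) ℂ) (s : ℂ) :
    eval (ups Q s) P = ∑ e ∈ P.support, P.coeff e * (s ^ e (some none) *
      Complex.exp ((Polynomial.C ((e none : ℕ) : ℂ) * Polynomial.X +
        ∑ k, Polynomial.C ((e (some (some k)) : ℕ) : ℂ) * Q k).eval s)) := by
  rw [eval_eq']
  refine Finset.sum_congr rfl fun e _ => ?_
  congr 1
  rw [Fintype.prod_option, Fintype.prod_option]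
  simp only [ups, Option.elim_none, Option.elim_some, Polynomial.eval_add, Polynomial.eval_mul, Polynomial.eval_C,
    Polynomial.eval_X, Polynomial.eval_finsetSum, Complex.exp_add, Complex.exp_sum]
  rw [← Complex.exp_nat_mul]
  have h1 : ∀ k, Complex.exp ((Q k).eval s) ^ e (some (some k)) =
      Complex.exp (((e (some (some k)) : ℕ) : ℂ) * (Q k).eval s) := fun k => by rw [← Complex.exp_nat_mul]
  simp only [h1]
  ring

theorem zero_ups {M : ℕ} (Q : Fin M → Polynomial ℂ)
    (hQ : ∀ (c0 : ℤ) (c : Fin M → ℤ), (Polynomial.C (c0 : ℂ) * Polynomial.X +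
      ∑ k, Polynomial.C (c k : ℂ) * Q k).natDegree = 0 → c0 = 0 ∧ c = 0)
    (P : MvPolynomial (Option (Option (Fin M))) ℂ) (hP : ∀ s : ℂ, eval (ups Q s) P = 0) : P = 0 := by
  classical
  let pr : (Option (Option (Fin M)) →₀ ℕ) → ℕ × (Fin M → ℕ) := fun e => (e none, fun k => e (some (some k)))
  let E : ℕ × (Fin M → ℕ) → Polynomial ℂ := fun p =>
    Polynomial.C ((p.1 : ℕ) : ℂ) * Polynomial.X + ∑ k, Polynomial.C ((p.2 k : ℕ) : ℂ) * Q k
  let R : ℕ × (Fin M → ℕ) → Polynomial ℂ := fun p =>
    ∑ e ∈ P.support.filter (fun e => pr e = p), Polynomial.C (P.coeff e) * Polynomial.X ^ e (some none)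
  have hrel : ∀ s : ℂ, ∑ p ∈ P.support.image pr, (R p).eval s * Complex.exp ((E p).eval s) = 0 := by
    intro s
    rw [← hP s, eval_ups]
    rw [← Finset.sum_fiberwise_of_maps_to (s := P.support) (t := P.support.image pr) (g := pr)
      (fun e he => Finset.mem_image_of_mem _ he)]
    refine Finset.sum_congr rfl fun p _ => ?_
    simp only [R]
    rw [Polynomial.eval_finsetSum, Finset.sum_mul]
    refine Finset.sum_congr rfl fun e he => ?_
    rw [Finset.mem_filter] at he
    have h1 : E p = Polynomial.C ((e none : ℕ) : ℂ) * Polynomial.X +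
        ∑ k, Polynomial.C ((e (some (some k)) : ℕ) : ℂ) * Q k := by
      rw [← he.2]
    rw [h1]
    simp only [Polynomial.eval_mul, Polynomial.eval_C, Polynomial.eval_pow, Polynomial.eval_X]
    ring
  have hpair : ∀ p ∈ P.support.image pr, ∀ q ∈ P.support.image pr, p ≠ q → (E p - E q).natDegree ≠ 0 := by
    intro p _ q _ hpq h0
    have h1 : E p - E q = Polynomial.C ((((p.1 : ℤ) - q.1 : ℤ)) : ℂ) * Polynomial.X +
        ∑ k, Polynomial.C ((((p.2 k : ℤ) - q.2 k : ℤ)) : ℂ) * Q k := by
      simp only [E]
      push_cast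
      simp only [Polynomial.C_sub, sub_mul, Finset.sum_sub_distrib]
      ring
    rw [h1] at h0
    obtain ⟨h2, h3⟩ := hQ _ _ h0
    apply hpq
    refine Prod.ext (by omega) (funext fun k => ?_)
    have h4 := congrFun h3 k
    simp only [Pi.zero_apply] at h4
    omega
  have hR := exp_indep (P.support.image pr) R E hpair hrel
  by_contra hP0
  obtain ⟨e0, he0⟩ := support_nonempty.2 hP0
  have h1 := hR (pr e0) (Finset.mem_image_of_mem _ he0)
  have h2 := congrArg (fun r => Polynomial.coeff r (e0 (some none))) h1
  simp only [R, Polynomial.finsetSum_coeff, Polynomial.coeff_C_mul, Polynomial.coeff_X_pow, Polynomial.coeff_zero,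
    mul_ite, mul_one, mul_zero] at h2
  rw [← Finset.sum_filter, Finset.filter_filter] at h2
  have h3 : P.support.filter (fun e => pr e = pr e0 ∧ e0 (some none) = e (some none)) = {e0} := by
    ext e
    rw [Finset.mem_filter, Finset.mem_singleton]
    constructor
    · rintro ⟨-, h4, h5⟩
      ext o
      rcases o with _ | _ | k
      · exact congrArg Prod.fst h4
      · exact h5.symm
      · exact congrFun (congrArg Prod.snd h4) k
    · rintro rfl
      exact ⟨he0, rfl, rfl⟩
  rw [h3, Finset.sum_singleton] at h2
  exact mem_support_iff.1 he0 h2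

lemma diff_term (c : ℂ) (n : ℕ) (q : Polynomial ℂ) :
    Differentiable ℂ fun s : ℂ => c * (s ^ n * Complex.exp (q.eval s)) := by
  have h2 : Differentiable ℂ fun s : ℂ => q.eval s := q.differentiable
  have h3 : Differentiable ℂ fun s : ℂ => s ^ n := differentiable_pow n
  exact (h3.mul h2.cexp).const_mul c

theorem diff_ups {M : ℕ} (Q : Fin M → Polynomial ℂ) (P : MvPolynomial (Option (Option (Fin M))) ℂ) :
    Differentiable ℂ fun s : ℂ => eval (ups Q s) P := by
  have h1 := funext (eval_ups Q P)
  rw [h1]
  exact Differentiable.fun_sum fun e _ => diff_term _ _ _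

theorem aindep_upc {M : ℕ} (Q : Fin M → Polynomial ℂ)
    (hQ : ∀ (c0 : ℤ) (c : Fin M → ℤ), (Polynomial.C (c0 : ℂ) * Polynomial.X +
      ∑ k, Polynomial.C (c k : ℂ) * Q k).natDegree = 0 → c0 = 0 ∧ c = 0) :
    AIndepS (upc Q) Complex.slitPlane := by
  intro P hP
  apply zero_ups Q hQ P
  have hval : ∀ s : ℂ, Complex.exp s ∈ Complex.slitPlane → -Real.pi < s.im → s.im ≤ Real.pi →
      eval (ups Q s) P = 0 := by
    intro s h1 h2 h3
    have h4 := hP _ h1
    have h5 : (fun o : Option (Option (Fin M)) => o.elim (Complex.exp s) fun y => upc Q y (Complex.exp s)) =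
        ups Q s := by
      funext o
      rcases o with _ | _ | k
      · rfl
      · simp only [ups, upc, Option.elim_none, Option.elim_some]
        rw [Complex.log_exp h2 h3]
      · simp only [ups, upc, Option.elim_some]
        rw [Complex.log_exp h2 h3]
    rw [h5] at h4
    exact h4
  have hev : ∀ᶠ s : ℂ in 𝓝 0, eval (ups Q s) P = 0 := by
    have h1 : ∀ᶠ s : ℂ in 𝓝 0, Complex.exp s ∈ Complex.slitPlane := by
      apply Complex.continuous_exp.continuousAt.eventually_mem
      rw [Complex.exp_zero]
      exact Complex.isOpen_slitPlane.mem_nhds Complex.one_mem_slitPlane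
    have h2 : ∀ᶠ s : ℂ in 𝓝 0, s.im ∈ Set.Ioo (-Real.pi) Real.pi := by
      apply Complex.continuous_im.continuousAt.eventually_mem
      rw [Complex.zero_im]
      exact Ioo_mem_nhds (by linarith [Real.pi_pos]) Real.pi_pos
    filter_upwards [h1, h2] with s h1 h2
    exact hval s h1 h2.1 h2.2.le
  have hdiff := diff_ups Q P
  have han : AnalyticOnNhd ℂ (fun s : ℂ => eval (ups Q s) P) Set.univ := fun s _ => hdiff.analyticAt s
  intro s
  exact han.eqOn_zero_of_preconnected_of_eventuallyEq_zero isPreconnected_univ (Set.mem_univ 0) hev (Set.mem_univ s)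

end Pool.Agent.Y627.PL
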