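import Pool.Agent.Y627.PL.Exp

set_option autoImplicit false

/-!
# Approximate relations between `π`, `log x_j` and `exp (Q_(j k) (log x_j))` for `x` in a number field
-/

open Filter Topology Height Height.AdmissibleAbsValues MvPolynomial Pool.Agent.Y124 Pool.Agent.Y771.KF

namespace Pool.Agent.Y627.PL

variable {k : Type} [Field k] [NumberField k]

/-- the numbers `π`, `log x_j` and `exp (Q_(j i) (log x_j))` -/
noncomputable def numC (σ : k →+* ℂ) {M n : ℕ} (Q : Fin n → Fin M → Polynomial ℂ) (x : Fin n → k)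
    (w : Option (Fin n × Option (Fin M))) : ℂ :=
  w.elim (Real.pi : ℂ) fun q => upc (Q q.1) q.2 (σ (x q.1))

/-- the exceptional tuples -/
def ExcC (σ : k →+* ℂ) {M n : ℕ} (d : ℕ) (Q : Fin n → Fin M → Polynomial ℂ) (K : Fin n → Set ℂ)
    (A B T : ℝ) : Set (Fin n → k) :=
  {x | (∀ j, σ (x j) ∈ K j ∧ mulHeight₁ (x j) ≤ T) ∧
    ∃ P : MvPolynomial (Option (Fin n × Option (Fin M))) k, P ≠ 0 ∧ (∀ i, P.degreeOf i ≤ d) ∧
      (∀ e, mulHeight₁ (P.coeff e) ≤ T ^ A) ∧ ‖eval₂ σ (numC σ Q x) P‖ ≤ T ^ (-B)}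

theorem ExcC_sub (σ : k →+* ℂ) {M n : ℕ} (d : ℕ) (Q : Fin n → Fin M → Polynomial ℂ) (K : Fin n → Set ℂ)
    (A B T : ℝ) : ExcC σ d Q K A B T ⊆
      ExcK σ (fun j : Fin n => upc (Q j)) (fun _ : Unit => Real.pi) K d A B T := by
  rintro x ⟨hx, P, hP0, hPd, hPc, hPs⟩
  refine ExcK_of_rename (Equiv.optionEquivSumPUnit (Fin n × Option (Fin M))) σ _ _ _ d A B T x hx
    (numC σ Q x) ?_ P hP0 hPd hPc hPs
  intro w
  cases w with
  | none => simp [numC]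
  | some w => simp [numC]

theorem main (σ : k →+* ℂ) (M n d : ℕ) (hn : 1 ≤ n) (Q : Fin n → Fin M → Polynomial ℂ)
    (hQ : ∀ (j : Fin n) (c0 : ℤ) (c : Fin M → ℤ), (Polynomial.C (c0 : ℂ) * Polynomial.X +
      ∑ i, Polynomial.C (c i : ℂ) * Q j i).natDegree = 0 → c0 = 0 ∧ c = 0)
    (K : Fin n → Set ℂ) (hK : ∀ j, IsCompact (K j)) (hKs : ∀ j, K j ⊆ Complex.slitPlane)
    (A ε : ℝ) (hε : 0 < ε) :
    ∃ (D : ℕ) (B C : ℝ), ∀ T : ℝ, 1 ≤ T →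
      (∃ Φ : Finset (MvPolynomial (Fin n) k), (Φ.card : ℝ) ≤ C * T ^ ε ∧ (∀ R ∈ Φ, R ≠ 0 ∧ R.totalDegree ≤ D) ∧
        ∀ x ∈ ExcC σ d Q K A B T, ∃ R ∈ Φ, eval x R = 0) ∧ (ExcC σ d Q K A B T).Finite ∧
      ((ExcC σ d Q K A B T).ncard : ℝ) ≤ C * T ^ ε * ({x : k | mulHeight₁ x ≤ T}.ncard : ℝ) ^ (n - 1) := by
  classical
  have hnn : Nonempty (Fin n) := ⟨⟨0, hn⟩⟩
  obtain ⟨D, B, C, hC, hcov⟩ := stdK (𝕜 := ℂ) σ σ (fun a => rfl)
    (fun j : Fin n => upc (Q j)) (fun _ : Unit => Real.pi)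
    (fun _ => Complex.slitPlane) K
    (fun _ => (Complex.starConvex_one_slitPlane.isPathConnected Complex.one_mem_slitPlane).isConnected.isPreconnected)
    hKs hK (fun j y => upc_an (Q j) y) (fun j => aindep_upc (Q j) (hQ j)) goodXi_pi d A ε hε
  obtain ⟨C', hC'⟩ := finish hn ε D C hC (fun T => ExcC σ d Q K A B T) (fun T _ t ht j => (ht.1 j).2)
    (fun T hT => (hcov T hT).mono le_rfl le_rfl (ExcC_sub σ d Q K A B T))
  exact ⟨D, B, C', hC'⟩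

end Pool.Agent.Y627.PL
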